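import Pool.Agent.helper93.RG.Spec

/-! # Row rg:FLD: two primes force divisibility by t^d - 1 -/

set_option autoImplicit false

namespace Pool.Agent.RG

open Finset

/-- The unit group modulo a prime `q` has an element of order `d` for every `d ∣ q - 1`. -/
theorem FLD_root (q d : ℕ) (hq : q.Prime) (hd : 0 < d) (hdq : d ∣ q - 1) :
    ∃ z : (ZMod q)ˣ, orderOf z = d := by
  have : Fact q.Prime := ⟨hq⟩
  obtain ⟨w, hw⟩ := IsCyclic.exists_generator (α := (ZMod q)ˣ)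
  have hord : orderOf w = q - 1 := by
    rw [orderOf_eq_card_of_forall_mem_zpowers hw, Nat.card_eq_fintype_card, ZMod.card_units]
  have hq1 : q - 1 ≠ 0 := by
    have := hq.two_le
    omega
  have hm : (q - 1) / d ≠ 0 := by
    have := Nat.div_pos (Nat.le_of_dvd (Nat.pos_of_ne_zero hq1) hdq) hd
    omega
  refine ⟨w ^ ((q - 1) / d), ?_⟩
  rw [orderOf_pow_of_dvd hm (by rw [hord]; exact Nat.div_dvd_of_dvd hdq), hord,
    Nat.div_div_self hdq hq1]

/-- The sum of the powers of a root of unity. -/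
theorem FLD_geom (q d : ℕ) (hq : q.Prime) (z : (ZMod q)ˣ) (hz : orderOf z = d) (m : ℤ) :
    ∑ k ∈ range d, (((z ^ m) ^ k : (ZMod q)ˣ) : ZMod q) = if (d : ℤ) ∣ m then (d : ZMod q) else 0 := by
  have : Fact q.Prime := ⟨hq⟩
  by_cases h : (d : ℤ) ∣ m
  · have h1 : z ^ m = 1 := by
      rw [← orderOf_dvd_iff_zpow_eq_one, hz]
      exact h
    rw [if_pos h, h1]
    simp
  · have h1 : z ^ m ≠ 1 := by
      rw [ne_eq, ← orderOf_dvd_iff_zpow_eq_one, hz]
      exact h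
    rw [if_neg h]
    have h2 : ∀ k ∈ range d, (((z ^ m) ^ k : (ZMod q)ˣ) : ZMod q) = (((z ^ m : (ZMod q)ˣ) : ZMod q)) ^ k := by
      intro k _
      rw [Units.val_pow_eq_pow_val]
    rw [Finset.sum_congr rfl h2]
    have h3 := geom_sum_mul ((z ^ m : (ZMod q)ˣ) : ZMod q) d
    have h4 : ((z ^ m : (ZMod q)ˣ) : ZMod q) ^ d = 1 := by
      rw [← Units.val_pow_eq_pow_val, ← zpow_natCast, ← zpow_mul, mul_comm, zpow_mul, zpow_natCast, ← hz,
        pow_orderOf_eq_one, one_zpow, Units.val_one]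
    rw [h4, sub_self] at h3
    rcases mul_eq_zero.mp h3 with h5 | h5
    · exact h5
    · exact absurd (Units.ext (by rw [Units.val_one]; exact sub_eq_zero.mp h5)) h1

/-- One prime divides the residue class sums. -/
theorem FLD_one (q d : ℕ) (g : ℤ →₀ ℤ) (hq : q.Prime) (hd : 0 < d) (hdq : d ∣ q - 1)
    (h : ∀ t : (ZMod q)ˣ, t ^ d = 1 → ev1 t g = 0) (r : ℤ) :
    (q : ℤ) ∣ ∑ j ∈ g.support with j ≡ r [ZMOD d], g j := by
  have : Fact q.Prime := ⟨hq⟩
  obtain ⟨z, hz⟩ := FLD_root q d hq hd hdq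
  have h1 : ∀ k ∈ range d, ∑ j ∈ g.support, (g j : ZMod q) * (((z ^ (j - r)) ^ k : (ZMod q)ˣ) : ZMod q) = 0 := by
    intro k _
    have h2 := h (z ^ k) (by rw [← pow_mul, mul_comm, pow_mul, ← hz, pow_orderOf_eq_one, one_pow])
    unfold ev1 at h2
    rw [Finsupp.sum] at h2
    have h3 : ∑ j ∈ g.support, (g j : ZMod q) * (((z ^ (j - r)) ^ k : (ZMod q)ˣ) : ZMod q) =
        (∑ j ∈ g.support, (g j : ZMod q) * (((z ^ k) ^ j : (ZMod q)ˣ) : ZMod q)) *
          (((z ^ k) ^ (-r) : (ZMod q)ˣ) : ZMod q) := by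
      rw [Finset.sum_mul]
      refine Finset.sum_congr rfl fun j _ => ?_
      rw [mul_assoc, ← Units.val_mul, ← zpow_add, ← sub_eq_add_neg]
      congr 2
      rw [← zpow_natCast, ← zpow_mul, ← zpow_natCast, ← zpow_mul, mul_comm]
    rw [h3, h2, zero_mul]
  have h2 : ∑ j ∈ g.support, (g j : ZMod q) * (if (d : ℤ) ∣ (j - r) then (d : ZMod q) else 0) = 0 := by
    refine Eq.trans ?_ (Finset.sum_eq_zero h1)
    rw [Finset.sum_comm]
    refine Finset.sum_congr rfl fun j _ => ?_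
    rw [← Finset.mul_sum, FLD_geom q d hq z hz]
  have h3 : ((∑ j ∈ g.support with j ≡ r [ZMOD d], g j : ℤ) : ZMod q) * (d : ZMod q) = 0 := by
    rw [← h2, Int.cast_sum, Finset.sum_filter, Finset.sum_mul]
    refine Finset.sum_congr rfl fun j _ => ?_
    have e : (j ≡ r [ZMOD d]) ↔ (d : ℤ) ∣ (j - r) := by
      rw [Int.modEq_comm, Int.modEq_iff_dvd]
    by_cases hj : (d : ℤ) ∣ (j - r)
    · rw [if_pos (e.mpr hj), if_pos hj]
    · rw [if_neg (fun hc => hj (e.mp hc)), if_neg hj]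
      simp
  have hd0 : (d : ZMod q) ≠ 0 := by
    intro hc
    rw [ZMod.natCast_eq_zero_iff] at hc
    have h4 := Nat.le_of_dvd hd hc
    have hq2 := hq.two_le
    have h5 := Nat.le_of_dvd (by omega) hdq
    omega
  rcases mul_eq_zero.mp h3 with h4 | h4
  · exact (ZMod.intCast_zmod_eq_zero_iff_dvd _ _).mp h4
  · exact absurd h4 hd0

theorem FLD : FLD_stmt := by
  intro d n q₁ q₂ g hd hq1 hq2 hne hd1 hd2 hn hg hev r
  have h1 := FLD_one q₁ d g hq1 hd hd1 (hev q₁ (Or.inl rfl)) r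
  have h2 := FLD_one q₂ d g hq2 hd hd2 (hev q₂ (Or.inr rfl)) r
  have h3 : |∑ j ∈ g.support with j ≡ r [ZMOD d], g j| ≤ (n : ℤ) := by
    refine le_trans (Finset.abs_sum_le_sum_abs _ _) (le_trans ?_ hg)
    exact Finset.sum_le_sum_of_subset_of_nonneg (Finset.filter_subset _ _) (fun _ _ _ => abs_nonneg _)
  rw [Int.natCast_dvd] at h1 h2
  have hc : Nat.Coprime q₁ q₂ := (Nat.coprime_primes hq1 hq2).mpr hne
  have h4 := hc.mul_dvd_of_dvd_of_dvd h1 h2
  have h5 : (∑ j ∈ g.support with j ≡ r [ZMOD d], g j).natAbs ≤ n := by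
    rw [Int.abs_eq_natAbs] at h3
    exact_mod_cast h3
  have h6 := Nat.eq_zero_of_dvd_of_lt h4 (lt_of_le_of_lt h5 hn)
  exact Int.natAbs_eq_zero.mp h6

end Pool.Agent.RG
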